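/-
Module H2/H3 of the WB project (MP_7b8095_gt): radial retraction onto the complement of disjoint
horoballs.  helper80.
-/
import Pool.Agent.helper21.WB.Defs2

set_option autoImplicit false
open Matrix MeasureTheory

namespace Pool.Agent.helper21.WB

namespace H2

theorem hbpos {ξ : I → ℝ} (h : NullF ξ) (y : X) : 0 < hb ξ y := by
  unfold hb
  have := bl_neg (v := lift y) (w := ξ) (by rw [bl_lift]; norm_num) (by linarith [lift_o_pos y])
    (by rw [h.1]) h.2
  rw [bl_comm] at this
  linarith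

theorem cont_lift : Continuous lift := by
  refine continuous_pi (fun i => ?_)
  rcases i with i | i
  · exact continuous_apply i
  · show Continuous (fun y : X => Real.sqrt (1 + ∑ i, y i ^ 2))
    fun_prop

theorem cont_bl (ξ : I → ℝ) : Continuous (fun v : I → ℝ => bl ξ v) := by
  have : (fun v : I → ℝ => bl ξ v)
      = fun v => ∑ i : Fin 4, ξ (Sum.inl i) * v (Sum.inl i) - ξ o * v o := by
    funext v; rw [bl_apply]
  rw [this]
  fun_prop

theorem cont_hb (ξ : I → ℝ) : Continuous (hb ξ) := by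
  unfold hb
  exact ((cont_bl ξ).comp cont_lift).neg

theorem cont_hd (x : X) : Continuous (fun y => hd x y) := by
  have h1 : Continuous (fun y => ch x y) := by
    unfold ch
    exact ((cont_bl (lift x)).comp cont_lift).neg
  unfold hd
  exact Real.continuousOn_arcosh.comp_continuous h1 (fun y => one_le_ch x y)

/-- scaling factor -/
noncomputable def fa (ξ : I → ℝ) (y : X) : ℝ := max 1 (1 / hb ξ y)

noncomputable def fb (ξ : I → ℝ) (y : X) : ℝ := (1 - fa ξ y ^ 2) / 2

noncomputable def rho (ξ : I → ℝ) (y : X) : X := fun i => fa ξ y * y i + fb ξ y * ξ (Sum.inl i)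

theorem cont_fa {ξ : I → ℝ} (h : NullF ξ) : Continuous (fa ξ) := by
  unfold fa
  refine continuous_const.max (continuous_const.div (cont_hb ξ) (fun y => (hbpos h y).ne'))

theorem cont_rho {ξ : I → ℝ} (h : NullF ξ) : Continuous (rho ξ) := by
  have h1 := cont_fa h
  unfold rho fb
  refine continuous_pi (fun i => ?_)
  fun_prop

theorem fa_out {ξ : I → ℝ} {y : X} (h : 1 ≤ hb ξ y) : fa ξ y = 1 := by
  unfold fa
  exact max_eq_left (by rw [div_le_one (by linarith)]; exact h)

theorem fa_in {ξ : I → ℝ} (hn : NullF ξ) {y : X} (h : hb ξ y ≤ 1) : fa ξ y = 1 / hb ξ y := by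
  unfold fa
  exact max_eq_right (by rw [le_div_iff₀ (hbpos hn y)]; linarith)

theorem rho_out {ξ : I → ℝ} {y : X} (h : 1 ≤ hb ξ y) : rho ξ y = y := by
  unfold rho fb
  rw [fa_out h]
  funext i
  ring

theorem lift_rho {ξ : I → ℝ} (hn : NullF ξ) {y : X} (h : hb ξ y ≤ 1) :
    lift (rho ξ y) = fa ξ y • lift y + fb ξ y • ξ := by
  have hp := hbpos hn y
  have ha : fa ξ y * hb ξ y = 1 := by rw [fa_in hn h]; field_simp
  have ha1 : 1 ≤ fa ξ y := le_max_left _ _
  set v : I → ℝ := fa ξ y • lift y + fb ξ y • ξ with hv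
  have h1 : bl v v = -1 := by
    rw [hv]
    simp only [bl_add_left, bl_add_right, bl_smul_left, bl_smul_right, bl_lift, hn.1]
    have e : bl ξ (lift y) = - hb ξ y := by unfold hb; ring
    rw [bl_comm (lift y) ξ, e]
    unfold fb
    linear_combination (-(1 - fa ξ y ^ 2)) * ha
  have h2 : bl v (lift y) < 0 := by
    rw [hv]
    simp only [bl_add_left, bl_smul_left, bl_lift]
    have e : bl ξ (lift y) = - hb ξ y := by unfold hb; ring
    rw [e]
    unfold fb
    nlinarith [ha, ha1]
  have h3 : 0 < v o := by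
    by_contra hc
    push Not at hc
    rcases hc.lt_or_eq with hc | hc
    · have := bl_neg (v := lift y) (w := -v) (by rw [bl_lift]; norm_num)
        (by linarith [lift_o_pos y]) (by
          have : bl (-v) (-v) = bl v v := by
            rw [show -v = (-1 : ℝ) • v by simp, bl_smul_left, bl_smul_right]; ring
          rw [this, h1]; norm_num) (by simpa using hc)
      rw [show -v = (-1 : ℝ) • v by simp, bl_smul_right, bl_comm] at this
      linarith
    · rw [bl_apply, hc] at h1
      have : 0 ≤ ∑ i : Fin 4, v (Sum.inl i) * v (Sum.inl i) :=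
        Finset.sum_nonneg (fun i _ => mul_self_nonneg _)
      linarith
  have h4 := eq_lift h1 h3
  rw [h4]
  congr 1

end H2

open H2

/-- [H2] radial retraction onto the complement of the horoballs -/
theorem exists_ret {Ξ : Set (I → ℝ)} (hΞ : Horo Ξ) : ∃ r : X → X, Continuous r ∧
    (∀ y ∈ Out Ξ, r y = y) ∧ (∀ y, r y ∈ Out Ξ) ∧
    (∀ ξ ∈ Ξ, ∀ y, hb ξ y ≤ 1 → hb ξ (r y) = 1 ∧ hd y (r y) = - Real.log (hb ξ y) ∧
      ∃ a b : ℝ, 1 ≤ a ∧ lift (r y) = a • lift y + b • ξ) := by
  classical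
  set f : Ξ → X → X := fun ξ y => rho ξ.1 y - y with hf
  have hfc : ∀ ξ, Continuous (f ξ) := fun ξ => (cont_rho (hΞ.null ξ.1 ξ.2)).sub continuous_id
  have hsupp : ∀ ξ : Ξ, Function.support (f ξ) ⊆ {y | hb ξ.1 y ≤ 1} := by
    intro ξ y hy
    by_contra hc
    simp only [Set.mem_setOf_eq, not_le] at hc
    apply hy
    simp only [hf]
    rw [rho_out hc.le, sub_self]
  have hlf : LocallyFinite (fun ξ => Function.support (f ξ)) := by
    intro y
    refine ⟨{z | hd y z < 1}, ?_, ?_⟩
    · exact (isOpen_Iio.preimage (cont_hd y)).mem_nhds (by simp [hd_self])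
    · have hfin := hΞ.locfin y 1
      have : {ξ : Ξ | (Function.support (f ξ) ∩ {z | hd y z < 1}).Nonempty} ⊆
          Subtype.val ⁻¹' {ξ | ξ ∈ Ξ ∧ ∃ z, hd y z ≤ 1 ∧ hb ξ z ≤ 1} := by
        rintro ξ ⟨z, hz1, hz2⟩
        exact ⟨ξ.2, z, (le_of_lt hz2), hsupp ξ hz1⟩
      exact (hfin.preimage Subtype.val_injective.injOn).subset this
  set r : X → X := fun y => y + ∑ᶠ ξ, f ξ y with hr
  have hrc : Continuous r := continuous_id.add (continuous_finsum hfc hlf)
  have hin : ∀ ξ ∈ Ξ, ∀ y, hb ξ y ≤ 1 → r y = rho ξ y := by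
    intro ξ hξ y hy
    have : ∑ᶠ ξ', f ξ' y = f ⟨ξ, hξ⟩ y := by
      refine finsum_eq_single _ _ (fun ξ' hne => ?_)
      by_contra hc
      have h1 : hb ξ'.1 y ≤ 1 := hsupp ξ' hc
      exact hne (Subtype.ext (hΞ.disj ξ'.1 ξ'.2 ξ hξ y h1 hy))
    simp only [hr]
    rw [this]
    simp [hf]
  have hout : ∀ y ∈ Out Ξ, r y = y := by
    intro y hy
    have : ∑ᶠ ξ, f ξ y = 0 := by
      refine finsum_eq_zero_of_forall_eq_zero (fun ξ => ?_)
      simp only [hf]
      rw [rho_out (hy ξ.1 ξ.2), sub_self]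
    simp only [hr]
    rw [this, add_zero]
  have hthird : ∀ ξ ∈ Ξ, ∀ y, hb ξ y ≤ 1 → hb ξ (r y) = 1 ∧ hd y (r y) = - Real.log (hb ξ y) ∧
      ∃ a b : ℝ, 1 ≤ a ∧ lift (r y) = a • lift y + b • ξ := by
    intro ξ hξ y hy
    have hn := hΞ.null ξ hξ
    have hp := hbpos hn y
    have hl := lift_rho hn hy
    have ha : fa ξ y * hb ξ y = 1 := by rw [fa_in hn hy]; field_simp
    have e : bl ξ (lift y) = - hb ξ y := by unfold hb; ring
    rw [hin ξ hξ y hy]
    refine ⟨?_, ?_, fa ξ y, fb ξ y, le_max_left _ _, hl⟩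
    · show - bl ξ (lift (rho ξ y)) = 1
      rw [hl, bl_add_right, bl_smul_right, bl_smul_right, hn.1, e]
      linarith
    · have h1 : ch y (rho ξ y) = Real.cosh (- Real.log (hb ξ y)) := by
        show - bl (lift y) (lift (rho ξ y)) = _
        rw [hl, bl_add_right, bl_smul_right, bl_smul_right, bl_lift, bl_comm (lift y) ξ, e,
          Real.cosh_neg, Real.cosh_log hp]
        unfold fb
        rw [fa_in hn hy]
        field_simp
        ring
      unfold hd
      rw [h1, Real.arcosh_cosh]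
      have := Real.log_nonpos hp.le hy
      linarith
  refine ⟨r, hrc, hout, ?_, hthird⟩
  intro y
  by_cases hy : y ∈ Out Ξ
  · rw [hout y hy]; exact hy
  · simp only [Out, Set.mem_setOf_eq, not_forall, not_le] at hy
    obtain ⟨ξ, hξ, hlt⟩ := hy
    obtain ⟨h1, -, -⟩ := hthird ξ hξ y hlt.le
    intro ξ' hξ'
    by_contra hc
    push Not at hc
    have := hΞ.disj ξ hξ ξ' hξ' (r y) h1.le hc.le
    rw [← this, h1] at hc
    exact lt_irrefl _ hc

namespace H2

/-- a null vector orthogonal to a point of the hyperboloid is zero -/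
theorem null_orth {u : I → ℝ} {z : X} (h1 : bl u u = 0) (h2 : bl u (lift z) = 0) : u = 0 := by
  rw [bl_apply] at h1 h2
  simp only [lift_inl] at h2
  have e1 : ∑ i : Fin 4, u (Sum.inl i) * u (Sum.inl i) = ∑ i : Fin 4, u (Sum.inl i) ^ 2 :=
    Finset.sum_congr rfl (fun i _ => by ring)
  rw [e1] at h1
  have cs := cs_spatial (fun i => u (Sum.inl i)) z
  have hz := lift_o_sq z
  set a := ∑ i : Fin 4, u (Sum.inl i) ^ 2
  set b := ∑ i : Fin 4, z i ^ 2
  set c := ∑ i : Fin 4, u (Sum.inl i) * z i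
  have ha : a = u o ^ 2 := by nlinarith
  have hc : c = u o * lift z o := by linarith
  have h3 : u o ^ 2 ≤ 0 := by
    have : c ^ 2 = u o ^ 2 * (1 + b) := by rw [hc, mul_pow, hz]
    nlinarith
  have h4 : u o = 0 := by nlinarith
  have h5 : a = 0 := by rw [ha, h4]; ring
  have h6 := (Finset.sum_eq_zero_iff_of_nonneg (fun i _ => sq_nonneg (u (Sum.inl i)))).1 h5
  funext i
  rcases i with i | i
  · have := h6 i (Finset.mem_univ _)
    simpa using this
  · exact h4

theorem sinh_id (p q : ℝ) : Real.sinh q ^ 2 + Real.sinh p ^ 2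
    + 2 * Real.sinh q * Real.sinh p * Real.cosh (p + q) = Real.sinh (p + q) ^ 2 := by
  rw [Real.cosh_add, Real.sinh_add]
  have h1 := Real.cosh_sq p
  have h2 := Real.cosh_sq q
  nlinarith [h1, h2, sq_nonneg (Real.sinh p), sq_nonneg (Real.sinh q)]

/-- one half of H3 -/
theorem ret_half {ξ : I → ℝ} (hn : NullF ξ) {x y z rz : X}
    (hz : hd x z + hd z y = hd x y) (hx : 1 ≤ hb ξ x) (hy : 1 ≤ hb ξ y) (hz1 : hb ξ z < 1)
    (hr : hb ξ rz = 1) {a b : ℝ} (ha : 1 ≤ a) (hl : lift rz = a • lift z + b • ξ) :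
    hd x rz ≤ hd x y := by
  have hp := hbpos hn z
  have e : bl ξ (lift z) = - hb ξ z := by unfold hb; ring
  -- a = 1 / hb ξ z
  have ha' : a * hb ξ z = 1 := by
    have : hb ξ rz = a * hb ξ z := by
      show - bl ξ (lift rz) = _
      rw [hl, bl_add_right, bl_smul_right, bl_smul_right, hn.1, e]; ring
    rw [← this, hr]
  have hb' : 2 * b = 1 - a ^ 2 := by
    have h1 := bl_lift rz
    rw [hl] at h1
    simp only [bl_add_left, bl_add_right, bl_smul_left, bl_smul_right, bl_lift, hn.1] at h1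
    rw [bl_comm (lift z) ξ, e] at h1
    linear_combination (-1 : ℝ) * h1 + (-2 * b) * ha'
  set d1 := hd x z with hd1
  set d2 := hd z y with hd2
  have h1 : 0 ≤ d1 := hd_nonneg _ _
  have h2 : 0 ≤ d2 := hd_nonneg _ _
  have hc1 : Real.cosh d1 = ch x z := cosh_hd x z
  have hc2 : Real.cosh d2 = ch z y := cosh_hd z y
  have hc : Real.cosh (d1 + d2) = ch x y := by rw [hz]; exact cosh_hd x y
  -- degenerate case
  rcases (add_nonneg h1 h2).eq_or_lt with h0 | h0
  · exfalso
    have hd10 : d1 = 0 := by linarith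
    have : ch x z = 1 := by rw [← hc1, hd10, Real.cosh_zero]
    have hu : lift z - lift x = 0 := by
      apply null_orth (z := x)
      · simp only [bl_sub_left, bl_sub_right, bl_lift]
        unfold ch at this
        rw [bl_comm (lift z) (lift x)]
        linarith
      · simp only [bl_sub_left, bl_lift]
        unfold ch at this
        rw [bl_comm (lift z) (lift x)]
        linarith
    have : z = x := lift_injective (sub_eq_zero.1 hu)
    rw [this] at hz1
    linarith
  have hs : 0 < Real.sinh (d1 + d2) := Real.sinh_pos_iff.2 h0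
  have hs1 : 0 ≤ Real.sinh d1 := Real.sinh_nonneg_iff.2 h1
  have hs2 : 0 ≤ Real.sinh d2 := Real.sinh_nonneg_iff.2 h2
  set s := Real.sinh (d1 + d2) with hsdef
  set A := Real.sinh d2 / s with hA
  set B := Real.sinh d1 / s with hB
  have hA0 : 0 ≤ A := by positivity
  have hB0 : 0 ≤ B := by positivity
  have hAB : A ^ 2 + B ^ 2 + 2 * A * B * ch x y = 1 := by
    rw [← hc, hA, hB]
    have := sinh_id d1 d2
    field_simp
    linarith
  have hm : A + B * ch x y = ch x z := by
    rw [← hc, ← hc1, hA, hB]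
    field_simp
    rw [hsdef, Real.cosh_add, Real.sinh_add]
    have h3 := Real.cosh_sq d1
    linear_combination (-Real.sinh d2) * h3
  have hm2 : A * ch x y + B = ch z y := by
    rw [← hc, ← hc2, hA, hB]
    field_simp
    rw [hsdef, Real.cosh_add, Real.sinh_add]
    have h3 := Real.cosh_sq d2
    linear_combination (-Real.sinh d1) * h3
  have hZ : lift z = A • lift x + B • lift y := by
    have hu : lift z - (A • lift x + B • lift y) = 0 := by
      have e1 : bl (lift x) (lift y) = - ch x y := by unfold ch; ring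
      have e2 : bl (lift x) (lift z) = - ch x z := by unfold ch; ring
      have e3 : bl (lift z) (lift y) = - ch z y := by unfold ch; ring
      have h1z : A * ch x z + B * ch z y = 1 := by
        rw [← hm, ← hm2]; linarith
      apply null_orth (z := z)
      · simp only [bl_sub_left, bl_sub_right, bl_add_left, bl_add_right, bl_smul_left,
          bl_smul_right, bl_lift]
        rw [bl_comm (lift z) (lift x), bl_comm (lift y) (lift x), bl_comm (lift y) (lift z),
          e1, e2, e3]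
        linarith
      · simp only [bl_sub_left, bl_add_left, bl_smul_left, bl_lift]
        rw [bl_comm (lift y) (lift z), e2, e3]
        linarith
    exact sub_eq_zero.1 hu
  have hk : hb ξ z = A * hb ξ x + B * hb ξ y := by
    unfold hb
    rw [hZ, bl_add_right, bl_smul_right, bl_smul_right]; ring
  have hrz : ch x rz = a * ch x z + b * hb ξ x := by
    unfold ch hb
    rw [hl, bl_add_right, bl_smul_right, bl_smul_right, bl_comm (lift x) ξ]; ring
  have hcc := one_le_ch x y
  set c := ch x y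
  set k := hb ξ z
  have hkAB : A + B ≤ k := by
    rw [hk]
    nlinarith
  have hfin : ch x rz ≤ c := by
    -- multiply by `2 k^2`
    have hG : 0 ≤ (2 * c - 1) * k ^ 2 - 2 * (A + B * c) * k + 1 := by
      have hG0 : (2 * c - 1) * (A + B) ^ 2 - 2 * (A + B * c) * (A + B) + 1
          = 2 * (c - 1) * A * (A + 2 * B) := by
        linear_combination (-1 : ℝ) * hAB
      have hG1 : (2 * c - 1) * k ^ 2 - 2 * (A + B * c) * k + 1
          = 2 * (c - 1) * A * (A + 2 * B) + (k - (A + B)) *
            (2 * (c - 1) * (2 * A + B) + (2 * c - 1) * (k - (A + B))) := by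
        linear_combination hG0
      rw [hG1]
      have q1 : 0 ≤ c - 1 := by linarith
      have q2 : 0 ≤ 2 * c - 1 := by linarith
      have q3 : 0 ≤ k - (A + B) := by linarith
      positivity
    have hk2 : 0 ≤ 1 - k ^ 2 := by nlinarith
    have hF : 0 ≤ 2 * c * k ^ 2 - 2 * (A + B * c) * k + hb ξ x * (1 - k ^ 2) := by
      nlinarith
    rw [hrz, ← hm]
    have e4 : 2 * k ^ 2 * (a * (A + B * c) + b * hb ξ x)
        = 2 * (A + B * c) * k - hb ξ x * (1 - k ^ 2) := by
      have q : a * k = 1 := ha'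
      have q2 : a ^ 2 * k ^ 2 = 1 := by rw [← mul_pow, q]; norm_num
      linear_combination (2 * k * (A + B * c)) * q + (k ^ 2 * hb ξ x) * hb' - hb ξ x * q2
    have hk0 : 0 < 2 * k ^ 2 := by positivity
    by_contra hcon
    push Not at hcon
    have := mul_lt_mul_of_pos_left hcon hk0
    rw [e4] at this
    linarith
  unfold hd
  exact (Real.arcosh_le_arcosh (by linarith [one_le_ch x rz]) (by linarith)).2 hfin

end H2

/-- [H3] points on a segment stay within the length of the segment after retraction -/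
theorem ret_segment {Ξ : Set (I → ℝ)} (hΞ : Horo Ξ) (r : X → X)
    (hr1 : ∀ y ∈ Out Ξ, r y = y) (hr2 : ∀ y, r y ∈ Out Ξ)
    (hr3 : ∀ ξ ∈ Ξ, ∀ y, hb ξ y ≤ 1 → hb ξ (r y) = 1 ∧
      ∃ a b : ℝ, 1 ≤ a ∧ lift (r y) = a • lift y + b • ξ)
    (x y z : X) (hx : x ∈ Out Ξ) (hy : y ∈ Out Ξ) (hz : hd x z + hd z y = hd x y) :
    hd x (r z) ≤ hd x y ∧ hd (r z) y ≤ hd x y := by
  have _ := hr2
  by_cases hzo : z ∈ Out Ξ
  · rw [hr1 z hzo]
    exact ⟨by linarith [hd_nonneg z y], by linarith [hd_nonneg x z]⟩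
  · simp only [Out, Set.mem_setOf_eq, not_forall, not_le] at hzo
    obtain ⟨ξ, hξ, hlt⟩ := hzo
    obtain ⟨h1, a, b, ha, hl⟩ := hr3 ξ hξ z hlt.le
    refine ⟨H2.ret_half (hΞ.null ξ hξ) hz (hx ξ hξ) (hy ξ hξ) hlt h1 ha hl, ?_⟩
    rw [hd_comm (r z) y, hd_comm x y]
    refine H2.ret_half (hΞ.null ξ hξ) ?_ (hy ξ hξ) (hx ξ hξ) hlt h1 ha hl
    rw [hd_comm y z, hd_comm z x, hd_comm y x, ← hz]; ring

end Pool.Agent.helper21.WB
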