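/-
Module R2-5 of the WB project (MP_7b8095_gt): three small commuting elements generating a lattice of
translations stay independent under an isomorphism of discrete groups.  helper80.
-/
import Pool.Agent.helper7.WB.RDefs
import Pool.Agent.helper26.WB.Z6
import Pool.Agent.helper19.WB.B5a
import Pool.Agent.helper26.WB.B3b
import Pool.Agent.H48.WB.Z0

set_option autoImplicit false
open Matrix NormedSpace

namespace Pool.Agent.helper7.WB
open Pool.Agent.helper21.WB Pool.Agent.helper21.WB.Z6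

namespace R25

theorem wedge_mul_wedge {ξ w w' : I → ℝ} (h0 : bl ξ ξ = 0) (h1 : bl ξ w = 0) (h2 : bl ξ w' = 0)
    (v : I → ℝ) : (wedge ξ w * wedge ξ w') *ᵥ v = (- (bl w w' * bl ξ v)) • ξ := by
  rw [← Matrix.mulVec_mulVec, wedge_mulVec, wedge_mulVec]
  rw [bl_sub_right, bl_smul_right, bl_smul_right, bl_sub_right, bl_smul_right, bl_smul_right,
    h0, h2, bl_comm w ξ, h1]
  simp only [mul_zero, sub_zero, zero_smul, zero_sub, neg_smul]
  rw [mul_comm]

theorem wedge_comm {ξ w w' : I → ℝ} (h0 : bl ξ ξ = 0) (h1 : bl ξ w = 0) (h2 : bl ξ w' = 0) :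
    wedge ξ w * wedge ξ w' = wedge ξ w' * wedge ξ w := by
  apply Matrix.ext_of_mulVec_single
  intro i
  rw [wedge_mul_wedge h0 h1 h2, wedge_mul_wedge h0 h2 h1, bl_comm w w']

theorem wedge_cube {ξ w : I → ℝ} (h0 : bl ξ ξ = 0) (h1 : bl ξ w = 0) : wedge ξ w ^ 3 = 0 := by
  have h3 : wedge ξ w ^ 3 = wedge ξ w * (wedge ξ w * wedge ξ w) := by
    rw [pow_succ, pow_two, mul_assoc]
  rw [h3]
  apply Matrix.ext_of_mulVec_single
  intro i
  rw [← Matrix.mulVec_mulVec, wedge_mul_wedge h0 h1 h1, Matrix.mulVec_smul, wedge_mulVec, h0,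
    bl_comm w ξ, h1, Matrix.zero_mulVec]
  simp

theorem exp_cube {A : Mat} (h : A ^ 3 = 0) : exp A = 1 + A + (1 / 2 : ℝ) • (A * A) := by
  rw [exp_eq_tsum ℝ]
  simp only
  rw [tsum_eq_sum (s := Finset.range 3)]
  · simp only [Finset.sum_range_succ, Finset.range_zero, Finset.sum_empty, zero_add]
    norm_num [Nat.factorial, pow_two]
  · intro k hk
    have hk3 : 3 ≤ k := by simpa using hk
    obtain ⟨m, rfl⟩ := Nat.exists_eq_add_of_le hk3
    rw [pow_add, h, zero_mul, smul_zero]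

theorem exp_wedge {ξ w : I → ℝ} (h0 : bl ξ ξ = 0) (h1 : bl ξ w = 0) :
    exp (wedge ξ w) = 1 + wedge ξ w + (1 / 2 : ℝ) • (wedge ξ w * wedge ξ w) :=
  exp_cube (wedge_cube h0 h1)

/-- `Yg` of a unipotent exponential -/
theorem Yg_expU {A : Mat} (h : A ^ 3 = 0) : Yg (expU A) = A := by
  have h' : (-A) ^ 3 = 0 := by rw [neg_pow, h, mul_zero]
  unfold Yg
  rw [expU_inv, expU_val, expU_val, exp_cube h, exp_cube h']
  rw [neg_mul_neg]
  module

theorem expU_nsmul (A : Mat) (n : ℕ) : expU (n • A) = expU A ^ n := by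
  induction n with
  | zero => rw [zero_smul, pow_zero, expU_zero]
  | succ n ih =>
    have hc : (n • A) * A = A * (n • A) := by
      rw [smul_mul_assoc, mul_smul_comm]
    rw [succ_nsmul, expU_add hc, ih, pow_succ]

theorem expU_zsmul (A : Mat) (n : ℤ) : expU (n • A) = expU A ^ n := by
  cases n with
  | ofNat n =>
    rw [Int.ofNat_eq_natCast, natCast_zsmul, zpow_natCast, expU_nsmul]
  | negSucc n =>
    rw [negSucc_zsmul, zpow_negSucc, ← expU_nsmul, expU_inv]

/-- product of powers of commuting exponentials -/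
theorem expU_prod {v : Fin 3 → Mat} (hc : ∀ i j, v i * v j = v j * v i) (n : Fin 3 → ℤ) :
    expU (v 0) ^ n 0 * expU (v 1) ^ n 1 * expU (v 2) ^ n 2 = expU (∑ i, n i • v i) := by
  have hz : ∀ i j (a b : ℤ), (a • v i) * (b • v j) = (b • v j) * (a • v i) := by
    intro i j a b
    have h : Commute (v i) (v j) := hc i j
    exact (h.smul_left a).smul_right b
  rw [← expU_zsmul, ← expU_zsmul, ← expU_zsmul, ← expU_add (hz 0 1 _ _), Fin.sum_univ_three]
  rw [← expU_add]
  rw [add_mul, mul_add, hz 0 2, hz 1 2]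

/-- the core: logarithms are linearly independent -/
theorem indep_log {Γ Γ' : Subgroup GLI} (hΓ' : Disc Γ') (φ : Γ ≃* Γ')
    {ξ : I → ℝ} (hξ : NullF ξ) (γ : Fin 3 → Γ) (w : Fin 3 → I → ℝ) (hw : ∀ i, bl ξ (w i) = 0)
    (hγ : ∀ i, (γ i).1.val = 1 + wedge ξ (w i) + (1 / 2 : ℝ) • (wedge ξ (w i) * wedge ξ (w i)))
    (hli : LinearIndependent ℝ (fun i => Yg (γ i).1)) (y : X) (L : Fin 3 → Mat)
    (hL : ∀ i, expU (L i) = (φ (γ i)).1) (hLc : ∀ i j, L i * L j = L j * L i) (R : ℝ)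
    (hR : ∀ A : Mat, nrm y A ≤ (1 / 2) * ∑ i, nrm y (L i) → nrm y (exp A) ≤ R) :
    LinearIndependent ℝ L := by
  have hW : ∀ i, (γ i).1 = expU (wedge ξ (w i)) := by
    intro i
    apply Units.ext
    rw [hγ, expU_val, exp_wedge hξ.1 (hw i)]
  have hYW : ∀ i, Yg (γ i).1 = wedge ξ (w i) := by
    intro i
    rw [hW, Yg_expU (wedge_cube hξ.1 (hw i))]
  -- the images of integer vectors
  set xn : (Fin 3 → ℤ) → Γ := fun n => γ 0 ^ n 0 * γ 1 ^ n 1 * γ 2 ^ n 2 with hxn
  have hx1 : ∀ n, (xn n).1 = expU (∑ i, n i • wedge ξ (w i)) := by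
    intro n
    rw [← expU_prod (fun i j => wedge_comm hξ.1 (hw i) (hw j))]
    simp only [hxn, Subgroup.coe_mul, Subgroup.coe_zpow, hW]
  have hx2 : ∀ n, (φ (xn n)).1 = expU (∑ i, n i • L i) := by
    intro n
    rw [← expU_prod hLc]
    simp only [hxn, map_mul, map_zpow, Subgroup.coe_mul, Subgroup.coe_zpow, hL]
  -- injectivity
  have hinj : ∀ n : Fin 3 → ℤ, expU (∑ i, n i • L i) = 1 → n = 0 := by
    intro n hn
    have h1 : φ (xn n) = 1 := Subtype.ext (by rw [hx2, hn]; rfl)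
    have h2 : xn n = 1 := by
      rw [← map_one φ] at h1
      exact φ.injective h1
    have h3 : expU (∑ i, n i • wedge ξ (w i)) = 1 := by rw [← hx1, h2]; rfl
    have h4 : ∑ i, n i • wedge ξ (w i) = wedge ξ (∑ i, (n i : ℝ) • w i) := by
      have := map_sum (wedgeL ξ) (fun i => (n i : ℝ) • w i) Finset.univ
      simp only [map_smul] at this
      change wedge ξ (∑ i, (n i : ℝ) • w i) = ∑ i, (n i : ℝ) • wedge ξ (w i) at this
      rw [this]
      refine Finset.sum_congr rfl (fun i _ => ?_)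
      rw [Int.cast_smul_eq_zsmul]
    have h5 : bl ξ (∑ i, (n i : ℝ) • w i) = 0 := by
      have := map_sum (blL ξ) (fun i => (n i : ℝ) • w i) Finset.univ
      simp only [map_smul] at this
      change bl ξ (∑ i, (n i : ℝ) • w i) = ∑ i, (n i : ℝ) • bl ξ (w i) at this
      rw [this]
      simp [hw]
    have h6 : wedge ξ (∑ i, (n i : ℝ) • w i) = 0 := by
      have e1 := Yg_expU (wedge_cube hξ.1 h5)
      rw [h4] at h3
      rw [h3] at e1
      rw [← e1]
      unfold Yg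
      rw [inv_one, sub_self, smul_zero]
    rw [← h4] at h6
    rw [Fintype.linearIndependent_iff] at hli
    have h7 := hli (fun i => (n i : ℝ)) (by
      rw [← h6]
      refine Finset.sum_congr rfl (fun i _ => ?_)
      rw [hYW, Int.cast_smul_eq_zsmul])
    funext i
    exact_mod_cast h7 i
  -- pigeonhole
  rw [Fintype.linearIndependent_iff]
  intro c hc
  by_contra hne
  push Not at hne
  obtain ⟨i₀, hi₀⟩ := hne
  obtain ⟨N, hN⟩ := exists_nat_ge (2 / |c i₀|)
  have hci : 0 < |c i₀| := abs_pos.2 hi₀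
  have hN2 : 2 ≤ N * |c i₀| := by rwa [div_le_iff₀ hci] at hN
  set n : ℕ → Fin 3 → ℤ := fun m i => round ((m * N : ℝ) * c i) with hn
  have hsumn : ∀ m, ∑ i, n m i • L i = ∑ i, ((n m i : ℝ) - (m * N : ℝ) * c i) • L i := by
    intro m
    have : ∑ i, ((m * N : ℝ) * c i) • L i = 0 := by
      have e : ∀ i, ((m * N : ℝ) * c i) • L i = (m * N : ℝ) • (c i • L i) := fun i => by
        rw [mul_smul]
      simp only [e]
      rw [← Finset.smul_sum, hc, smul_zero]
    simp only [sub_smul, Finset.sum_sub_distrib]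
    rw [this, sub_zero]
    refine Finset.sum_congr rfl (fun i _ => ?_)
    rw [Int.cast_smul_eq_zsmul]
  have hnorm : ∀ m, nrm y (∑ i, n m i • L i) ≤ (1 / 2) * ∑ i, nrm y (L i) := by
    intro m
    rw [hsumn, Fin.sum_univ_three, Fin.sum_univ_three]
    have hh : ∀ i, nrm y (((n m i : ℝ) - (m * N : ℝ) * c i) • L i) ≤ 1 / 2 * nrm y (L i) := by
      intro i
      rw [nrm_smul]
      refine mul_le_mul_of_nonneg_right ?_ (nrm_nonneg _ _)
      rw [abs_sub_comm]
      exact abs_sub_round _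
    have h1 := nrm_add y (((n m 0 : ℝ) - (m * N : ℝ) * c 0) • L 0
      + ((n m 1 : ℝ) - (m * N : ℝ) * c 1) • L 1) (((n m 2 : ℝ) - (m * N : ℝ) * c 2) • L 2)
    have h2 := nrm_add y (((n m 0 : ℝ) - (m * N : ℝ) * c 0) • L 0)
      (((n m 1 : ℝ) - (m * N : ℝ) * c 1) • L 1)
    have := hh 0
    have := hh 1
    have := hh 2
    linarith
  set R' : ℝ := Real.exp (2 * hd y 0) * R with hR'
  have hfin := finite_fn_le hΓ' R'
  have hmem : ∀ m : ℕ, expU (∑ i, n m i • L i) ∈ {g | g ∈ Γ' ∧ fn g.val ≤ R'} := by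
    intro m
    refine ⟨by rw [← hx2]; exact (φ (xn (n m))).2, ?_⟩
    rw [← nrm_zero, expU_val]
    refine (nrm_lip y 0 _).trans ?_
    exact mul_le_mul_of_nonneg_left (hR _ (hnorm m)) (Real.exp_pos _).le
  have : Finite {g : GLI | g ∈ Γ' ∧ fn g.val ≤ R'} := hfin
  obtain ⟨m, m', hmm, heq⟩ := Finite.exists_ne_map_eq_of_infinite
    (fun m : ℕ => (⟨expU (∑ i, n m i • L i), hmem m⟩ : {g : GLI | g ∈ Γ' ∧ fn g.val ≤ R'}))
  have heq' : expU (∑ i, n m i • L i) = expU (∑ i, n m' i • L i) := congrArg Subtype.val heq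
  have hone : expU (∑ i, (n m - n m') i • L i) = 1 := by
    have e1 : ∑ i, (n m - n m') i • L i = (∑ i, n m i • L i) + (-(∑ i, n m' i • L i)) := by
      simp only [Pi.sub_apply, sub_smul, Finset.sum_sub_distrib]
      abel
    have hsum_comm : (∑ i, n m i • L i) * (-(∑ i, n m' i • L i))
        = (-(∑ i, n m' i • L i)) * (∑ i, n m i • L i) := by
      have : Commute (∑ i, n m i • L i) (∑ i, n m' i • L i) := by
        refine Commute.sum_left _ _ _ (fun i _ => Commute.sum_right _ _ _ (fun j _ => ?_))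
        have h : Commute (L i) (L j) := hLc i j
        exact (h.smul_left _).smul_right _
      exact this.neg_right
    rw [e1, expU_add hsum_comm, ← expU_inv, heq', mul_inv_cancel]
  have hz := hinj _ hone
  have hz0 : n m i₀ = n m' i₀ := by
    have := congrFun hz i₀
    simp only [Pi.sub_apply, Pi.zero_apply] at this
    omega
  -- but the rounded values differ
  have h1 : |((m * N : ℝ) * c i₀) - (n m i₀ : ℝ)| ≤ 1 / 2 := abs_sub_round _
  have h2 : |((m' * N : ℝ) * c i₀) - (n m' i₀ : ℝ)| ≤ 1 / 2 := abs_sub_round _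
  rw [hz0] at h1
  have h3 : |((m : ℝ) - m') * (N * c i₀)| ≤ 1 := by
    have : ((m : ℝ) - m') * (N * c i₀) = (((m * N : ℝ) * c i₀) - (n m' i₀ : ℝ))
        - (((m' * N : ℝ) * c i₀) - (n m' i₀ : ℝ)) := by ring
    rw [this]
    refine (abs_sub _ _).trans ?_
    linarith
  rw [abs_mul, abs_mul, abs_of_nonneg (show (0 : ℝ) ≤ N from Nat.cast_nonneg N)] at h3
  have h4 : (1 : ℝ) ≤ |(m : ℝ) - m'| := by
    have : (1 : ℤ) ≤ |(m : ℤ) - m'| := Int.one_le_abs (sub_ne_zero.2 (by exact_mod_cast hmm))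
    exact_mod_cast this
  nlinarith

theorem indep_of_iso_of (hab : Ab3) : ∃ η₀ : ℝ, 0 < η₀ ∧ ∀ (Γ Γ' : Subgroup GLI), Disc Γ → Disc Γ' →
    ∀ (φ : Γ ≃* Γ') (ξ : I → ℝ), NullF ξ → ∀ (γ : Fin 3 → Γ),
    (∀ i, ∃ w, bl ξ w = 0 ∧
      (γ i).1.val = 1 + wedge ξ w + (1 / 2 : ℝ) • (wedge ξ w * wedge ξ w)) →
    LinearIndependent ℝ (fun i => Yg (γ i).1) → ∀ y, (∀ i, sm y (φ (γ i)).1 ≤ η₀) →
    LinearIndependent ℝ (fun i => Yg (φ (γ i)).1) := by
  obtain ⟨r, r', hr, hr', h3, hb, hs⟩ := exp_local_nrm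
  refine ⟨min r' (r / 18), lt_min hr' (by positivity), ?_⟩
  intro Γ Γ' hΓ hΓ' φ ξ hξ γ hγ hli y hsm
  choose w hw hγw using hγ
  have hWg : ∀ i, (γ i).1 = expU (wedge ξ (w i)) := by
    intro i
    apply Units.ext
    rw [hγw, expU_val, exp_wedge hξ.1 (hw i)]
  have hex : ∀ i, ∃ A : Mat, nrm y A ≤ r ∧ exp A = (φ (γ i)).1.val := fun i =>
    hs y (φ (γ i)).1.val ((hsm i).trans (min_le_left _ _))
  choose L hL1 hL2 using hex
  have h9 : ∀ i, 9 * nrm y (L i) ≤ r := by
    intro i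
    have h0 : nrm y (0 : Mat) = 0 := (nrm_eq_zero y 0).2 rfl
    have h1 := (hb y (L i) 0 (hL1 i) (by rw [h0]; exact hr.le)).1
    rw [exp_zero, sub_zero, hL2] at h1
    have h2 : nrm y ((φ (γ i)).1.val - 1) ≤ r / 18 := (hsm i).trans (min_le_right _ _)
    linarith
  have hL : ∀ i, expU (L i) = (φ (γ i)).1 := fun i => Units.ext (hL2 i)
  have hLc : ∀ i j, L i * L j = L j * L i := by
    intro i j
    refine commute_log h3 hb (h9 i) (h9 j) ?_
    rw [hL2, hL2, ← Units.val_mul, ← Units.val_mul, ← Subgroup.coe_mul, ← Subgroup.coe_mul,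
      ← map_mul, ← map_mul]
    have : γ i * γ j = γ j * γ i := by
      apply Subtype.ext
      rw [Subgroup.coe_mul, Subgroup.coe_mul, hWg, hWg]
      have hc := wedge_comm hξ.1 (hw i) (hw j)
      rw [← expU_add hc, ← expU_add hc.symm, add_comm]
    rw [this]
  have hSo : ∀ i, IsSo (L i) := fun i => isSo_log hb (hΓ'.inG _ (φ (γ i)).2) (h9 i) (hL2 i)
  have hind : LinearIndependent ℝ L := by
    refine indep_log hΓ' φ hξ γ w hw hγw hli y L hL hLc 3 (fun A hA => ?_)
    refine (nrm_exp_le h3 hb ?_).2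
    have := h9 0
    have := h9 1
    have := h9 2
    rw [Fin.sum_univ_three] at hA
    linarith
  obtain ⟨ξ', hξ', hall⟩ := hab L hSo hLc hind
  have hY : ∀ i, Yg (φ (γ i)).1 = L i := by
    intro i
    obtain ⟨w', hw', hLw⟩ := hall (L i) (hSo i) (fun j => hLc i j)
    rw [← hL]
    apply Yg_expU
    rw [hLw]
    exact wedge_cube hξ'.1 hw'
  have : (fun i => Yg (φ (γ i)).1) = L := funext hY
  rw [this]
  exact hind

end R25

end Pool.Agent.helper7.WB
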