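/-
Module N2a of the WB project (MP_7b8095_gt): cylindrical coordinates of hyperbolic four space.
helper80.
-/
import Pool.Agent.helper31.WB.NDefs

set_option autoImplicit false
open Matrix MeasureTheory

namespace Pool.Agent.helper21.WB.NN

namespace N2a

theorem meas_Psi : Measurable Psi := by
  unfold Psi
  refine measurable_pi_iff.2 (fun i => ?_)
  refine Fin.cases ?_ (fun j => ?_) i
  · simp only [Fin.cons_zero]
    fun_prop
  · simp only [Fin.cons_succ]
    fun_prop

theorem sum_Psi (p : ℝ × (Fin 3 → ℝ)) : 1 + ∑ i, Psi p i ^ 2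
    = (Real.sqrt (1 + ∑ i, p.2 i ^ 2) * Real.cosh p.1) ^ 2 := by
  have h : 0 ≤ 1 + ∑ i, p.2 i ^ 2 := by
    have : 0 ≤ ∑ i, p.2 i ^ 2 := Finset.sum_nonneg (fun i _ => sq_nonneg _)
    linarith
  rw [Fin.sum_univ_succ]
  simp only [Psi, Fin.cons_zero, Fin.cons_succ]
  rw [mul_pow, mul_pow, Real.sq_sqrt h, Real.cosh_sq]
  ring

theorem sqrt_Psi (p : ℝ × (Fin 3 → ℝ)) : Real.sqrt (1 + ∑ i, Psi p i ^ 2)
    = Real.sqrt (1 + ∑ i, p.2 i ^ 2) * Real.cosh p.1 := by
  rw [sum_Psi, Real.sqrt_sq (by positivity)]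

/-- one-dimensional change of variables -/
theorem cv (c : ℝ) (hc : 0 < c) (g : ℝ → ENNReal) :
    ∫⁻ u, g u = ∫⁻ s, ENNReal.ofReal (c * Real.cosh s) * g (c * Real.sinh s) := by
  have h := lintegral_image_eq_lintegral_abs_deriv_mul (s := Set.univ)
    (f := fun s => c * Real.sinh s) (f' := fun s => c * Real.cosh s) MeasurableSet.univ
    (fun x _ => ((Real.hasDerivAt_sinh x).const_mul c).hasDerivWithinAt)
    (fun x _ y _ hxy => Real.sinh_injective (mul_left_cancel₀ hc.ne' hxy)) g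
  have hs : (fun s => c * Real.sinh s) '' Set.univ = Set.univ := by
    rw [Set.image_univ]
    refine Set.range_eq_univ.2 (fun u => ?_)
    obtain ⟨s, hs⟩ := Real.sinh_surjective (u / c)
    exact ⟨s, by simp only [hs]; field_simp⟩
  rw [hs, Measure.restrict_univ] at h
  rw [h]
  refine lintegral_congr (fun s => ?_)
  rw [abs_of_pos (by positivity)]

end N2a

open N2a

theorem mp_Psi : MeasurePreserving Psi (volume : Measure (ℝ × (Fin 3 → ℝ))) μ := by
  refine ⟨meas_Psi, ?_⟩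
  ext E hE
  rw [Measure.map_apply meas_Psi hE]
  -- right hand side
  set dens : X → ENNReal := fun y => ENNReal.ofReal (1 / Real.sqrt (1 + ∑ i, y i ^ 2)) with hdens
  have hdm : Measurable dens := by
    rw [hdens]
    fun_prop
  have hmp := (volume_preserving_piFinSuccAbove (fun _ : Fin 4 => ℝ) 0).symm
  have hR : μ E = ∫⁻ w : Fin 3 → ℝ, ∫⁻ u : ℝ, E.indicator dens (Fin.cons u w) := by
    unfold μ
    rw [withDensity_apply _ hE, ← lintegral_indicator hE]
    rw [← hmp.lintegral_comp (hdm.indicator hE)]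
    have hm : Measurable (fun p : ℝ × (Fin 3 → ℝ) => E.indicator dens (Fin.cons p.1 p.2 : X)) := by
      have h2 : Measurable (fun p : ℝ × (Fin 3 → ℝ) => (Fin.cons p.1 p.2 : X)) := by
        refine measurable_pi_iff.2 (fun i => ?_)
        refine Fin.cases ?_ (fun j => ?_) i
        · simp only [Fin.cons_zero]; fun_prop
        · simp only [Fin.cons_succ]; fun_prop
      exact (hdm.indicator hE).comp h2
    have h3 : ∀ p : ℝ × (Fin 3 → ℝ),
        ((MeasurableEquiv.piFinSuccAbove (fun _ : Fin 4 => ℝ) 0).symm p : X)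
          = Fin.cons p.1 p.2 := by
      intro p
      show (Fin.insertNth (α := fun _ => ℝ) (0 : Fin 4) p.1 p.2 : X) = _
      rw [Fin.insertNth_zero]
      rfl
    rw [show (∫⁻ w : Fin 3 → ℝ, ∫⁻ u : ℝ, E.indicator dens (Fin.cons u w))
      = ∫⁻ p : ℝ × (Fin 3 → ℝ), E.indicator dens (Fin.cons p.1 p.2 : X)
        ∂((volume : Measure ℝ).prod (volume : Measure (Fin 3 → ℝ))) from
      (lintegral_prod_symm' _ hm).symm]
    refine lintegral_congr (fun p => ?_)
    rw [h3 p]
  rw [hR]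
  have hL : (volume : Measure (ℝ × (Fin 3 → ℝ))) (Psi ⁻¹' E)
      = ∫⁻ w : Fin 3 → ℝ, volume ((fun s => (s, w)) ⁻¹' (Psi ⁻¹' E)) :=
    Measure.prod_apply_symm (meas_Psi hE)
  rw [hL]
  refine lintegral_congr (fun w => ?_)
  have hc : 0 < Real.sqrt (1 + ∑ i, w i ^ 2) := by
    apply Real.sqrt_pos.2
    have : 0 ≤ ∑ i, w i ^ 2 := Finset.sum_nonneg (fun i _ => sq_nonneg _)
    linarith
  rw [cv _ hc]
  have hms : MeasurableSet ((fun s => (s, w)) ⁻¹' (Psi ⁻¹' E)) :=
    measurable_prodMk_right (meas_Psi hE)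
  rw [← lintegral_indicator_one hms]
  refine lintegral_congr (fun s => ?_)
  have hP : (Fin.cons (Real.sqrt (1 + ∑ i, w i ^ 2) * Real.sinh s) w : X) = Psi (s, w) := rfl
  by_cases hs : Psi (s, w) ∈ E
  · rw [hP, Set.indicator_of_mem hs, Set.indicator_of_mem (show s ∈ (fun s => (s, w)) ⁻¹' (Psi ⁻¹' E)
      from hs)]
    simp only [hdens, Pi.one_apply]
    rw [sqrt_Psi, ← ENNReal.ofReal_mul (by positivity)]
    simp only
    rw [mul_one_div_cancel (by positivity), ENNReal.ofReal_one]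
  · rw [hP, Set.indicator_of_notMem hs, Set.indicator_of_notMem
      (show s ∉ (fun s => (s, w)) ⁻¹' (Psi ⁻¹' E) from hs), mul_zero]

end Pool.Agent.helper21.WB.NN
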